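import Pool.Agent.Q174.Sh.Fin

set_option autoImplicit false

/-!
# Linear lower bound for the number of knots from a reduced shadow

A shadow with `N` crossings is given by a Gauss word, by the directions of the crossing passages and
Euler's formula (`Shadow`); `S.Reduced`: no crossing is nugatory; `S.f`: the number of isotopy
classes of knots into which the shadow resolves.  Every reduced shadow `S` with `N` crossings
resolves into at least `N / 4 + 1` knots.
-/

namespace Pool.Agent.Results.MP_a5f24b_gt.LinearBound

open Pool.Agent.Q174.Sh

/-- **There is a universal constant `c > 0` such that every reduced shadow with `N` crossings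
resolves into more than `c N` knots**; in fact into at least `N / 4 + 1` knots.  (All resolutions
are plane knot diagrams.) -/
theorem result :
    (∃ c : ℝ, 0 < c ∧ ∀ (N : ℕ) (S : Shadow N), S.Reduced → c * (N : ℝ) < (S.f : ℝ)) ∧
    (∀ (N : ℕ) (S : Shadow N), S.Reduced → N + 4 ≤ 4 * S.f) ∧
    (∀ (N : ℕ) (S : Shadow N) (o : Fin N → Bool), PlaneKnot (S.dia o)) := by
  refine ⟨⟨1 / 4, by norm_num, fun N S h => ?_⟩, fun N S h => card_classes S h,
    fun N S o => planeKnot_dia S o⟩
  have h1 := card_classes S h
  have h2 : ((N + 4 : ℕ) : ℝ) ≤ ((4 * S.f : ℕ) : ℝ) := Nat.cast_le.2 h1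
  push_cast at h2
  linarith

end Pool.Agent.Results.MP_a5f24b_gt.LinearBound
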